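import Pool.Agent.T9h7.RD.Defs

/-!
# (MIN) A shortest space-aware refutation has no repeated configurations
-/

set_option autoImplicit false

namespace Pool.Agent.T9h41.RD

open Pool.Agent.T9h7.RD

variable {n : ℕ}

/-- One step of a refutation. -/
def Stp (F : Finset (Finset (Fin n × Bool))) (P Q : Finset (Finset (Fin n × Bool))) : Prop :=
  (∃ C ∈ F, Q = insert C P) ∨
    (∃ A ∈ P, ∃ B ∈ P, ∃ v : Fin n,
      (v, true) ∈ A ∧ (v, false) ∈ B ∧
      Q = insert (A.erase (v, true) ∪ B.erase (v, false)) P) ∨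
    Q ⊆ P

/-- **(MIN)** -/
theorem sMin : SMin := by
  classical
  intro n F s w τ M hM hs hw
  have hex : ∃ T : ℕ, ∃ M' : ℕ → Finset (Finset (Fin n × Bool)), IsRef F T M' ∧
      (∀ t ≤ T, ∑ C ∈ M' t, C.card ≤ s) ∧ (∀ t ≤ T, ∀ C ∈ M' t, C.card ≤ w) :=
    ⟨τ, M, hM, hs, hw⟩
  obtain ⟨M', hM', hs', hw'⟩ := Nat.find_spec hex
  have hmin : ∀ T' < Nat.find hex, ¬ ∃ M' : ℕ → Finset (Finset (Fin n × Bool)), IsRef F T' M' ∧
      (∀ t ≤ T', ∑ C ∈ M' t, C.card ≤ s) ∧ (∀ t ≤ T', ∀ C ∈ M' t, C.card ≤ w) :=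
    fun T' hT' => Nat.find_min hex hT'
  obtain ⟨T, hT⟩ : ∃ T, T = Nat.find hex := ⟨_, rfl⟩
  rw [← hT] at hM' hs' hw' hmin
  obtain ⟨h0, hend, hstep⟩ := hM'
  have hstep' : ∀ t < T, Stp F (M' t) (M' (t + 1)) := hstep
  -- no repetition
  have hrep : ∀ i j, i < j → j ≤ T → M' i ≠ M' j := by
    intro i j hij hj heq
    obtain ⟨e, rfl⟩ : ∃ e, j = i + e := ⟨j - i, by omega⟩
    obtain ⟨M'', hM''⟩ : ∃ M'' : ℕ → Finset (Finset (Fin n × Bool)),
        M'' = fun k => if k ≤ i then M' k else M' (k + e) := ⟨_, rfl⟩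
    have hlow : ∀ k, k ≤ i → M'' k = M' k := by
      intro k hk
      rw [hM'']
      simp [hk]
    have hhigh : ∀ k, i ≤ k → M'' k = M' (k + e) := by
      intro k hk
      rcases hk.eq_or_lt with rfl | hk
      · rw [hlow _ le_rfl, heq]
      · rw [hM'']
        simp [Nat.not_le.2 hk]
    refine hmin (T - e) (by omega) ⟨M'', ⟨?_, ?_, ?_⟩, ?_, ?_⟩
    · rw [hlow 0 (Nat.zero_le _), h0]
    · rw [hhigh (T - e) (by omega), Nat.sub_add_cancel (by omega)]
      exact hend
    · intro t ht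
      change Stp F (M'' t) (M'' (t + 1))
      rcases Nat.lt_or_ge t i with hti | hti
      · rw [hlow t hti.le, hlow (t + 1) hti]
        exact hstep' t (by omega)
      · rw [hhigh t hti, hhigh (t + 1) (by omega), show t + 1 + e = t + e + 1 by ring]
        exact hstep' (t + e) (by omega)
    · intro t ht
      rcases Nat.lt_or_ge t i with hti | hti
      · rw [hlow t hti.le]
        exact hs' t (by omega)
      · rw [hhigh t hti]
        exact hs' (t + e) (by omega)
    · intro t ht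
      rcases Nat.lt_or_ge t i with hti | hti
      · rw [hlow t hti.le]
        exact hw' t (by omega)
      · rw [hhigh t hti]
        exact hw' (t + e) (by omega)
  refine ⟨T, M', ⟨h0, hend, hstep⟩, hs', hw', ?_, ?_⟩
  · intro i hi j hj heq
    rcases Nat.lt_trichotomy i j with h | h | h
    · exact absurd heq (hrep i j h hj)
    · exact h
    · exact absurd heq.symm (hrep j i h hi)
  · intro t ht hmem
    exact hmin t ht ⟨M', ⟨h0, hmem, fun k hk => hstep k (by omega)⟩,
      fun k hk => hs' k (by omega), fun k hk => hw' k (by omega)⟩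

end Pool.Agent.T9h41.RD
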